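import Pool.Agent.Helper70.Isg.Goals2

/-!
# MP_600500_pr: the differential inequality for the plus magnetization
-/

open MeasureTheory
open Pool.Agent.Helper70.Isg

noncomputable section

namespace Pool.Agent.Helper52.Isg

variable {d : ℕ}

section lin

variable {V : Type} [Fintype V] [DecidableEq V] (J : V → V → ℝ) (h : V → ℝ)

lemma gav_sum {ι : Type*} (s : Finset ι) (f : ι → (V → Bool) → ℝ) :
    gav J h (fun σ => ∑ i ∈ s, f i σ) = ∑ i ∈ s, gav J h (f i) := by
  unfold gav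
  simp only [Finset.sum_mul]
  rw [Finset.sum_comm, Finset.sum_div]

lemma gav_mul (c : ℝ) (f : (V → Bool) → ℝ) :
    gav J h (fun σ => c * f σ) = c * gav J h f := by
  unfold gav
  simp only [mul_assoc]
  rw [← Finset.mul_sum, mul_div_assoc]

lemma gav_add (f g : (V → Bool) → ℝ) :
    gav J h (fun σ => f σ + g σ) = gav J h f + gav J h g := by
  unfold gav
  simp only [add_mul]
  rw [Finset.sum_add_distrib, add_div]

end lin

/-- the couplings in the energy -/
def cc (Λ : Finset (Site d)) (u v : Λ) : ℝ :=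
  if (v : Site d) ∈ nbrs (u : Site d) then 1 / 2 else 0

/-- the number of outer neighbours -/
def nn (Λ : Finset (Site d)) (u : Λ) : ℝ := (((nbrs (u : Site d)).filter (· ∉ Λ)).card : ℝ)

lemma cc_nonneg (Λ : Finset (Site d)) (u v : Λ) : 0 ≤ cc Λ u v := by
  unfold cc; split_ifs <;> norm_num

lemma nn_nonneg (Λ : Finset (Site d)) (u : Λ) : 0 ≤ nn Λ u := by
  unfold nn; positivity

lemma glue_mem (Λ : Finset (Site d)) (τ : Λ → Bool) (η : Cfg d) (v : Λ) :
    glue Λ τ η v = τ v := by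
  unfold glue
  rw [dif_pos v.2]

lemma glue_not (Λ : Finset (Site d)) (τ : Λ → Bool) (η : Cfg d) {v : Site d} (hv : v ∉ Λ) :
    glue Λ τ η v = η v := by
  unfold glue
  rw [dif_neg hv]

lemma enrg_glue (Λ : Finset (Site d)) (τ : Λ → Bool) :
    enrg Λ (glue Λ τ allT) =
      (∑ u : Λ, ∑ v : Λ, cc Λ u v * (sg (τ u) * sg (τ v))) + ∑ u : Λ, nn Λ u * sg (τ u) := by
  unfold enrg
  rw [← Finset.sum_coe_sort Λ, ← Finset.sum_add_distrib]
  refine Finset.sum_congr rfl fun u _ => ?_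
  rw [← Finset.sum_filter_add_sum_filter_not (nbrs (u : Site d)) (· ∈ Λ)]
  congr 1
  · have h1 : ∑ v ∈ (nbrs (u : Site d)).filter (· ∈ Λ),
        (if v ∈ Λ then (1 / 2 : ℝ) else 1) * (sg (glue Λ τ allT u) * sg (glue Λ τ allT v)) =
        ∑ v ∈ Λ.filter (· ∈ nbrs (u : Site d)),
        (1 / 2 : ℝ) * (sg (glue Λ τ allT u) * sg (glue Λ τ allT v)) := by
      refine Finset.sum_congr ?_ ?_
      · ext v; simp [and_comm]
      · intro v hv
        rw [Finset.mem_filter] at hv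
        rw [if_pos hv.1]
    rw [h1, Finset.sum_filter, ← Finset.sum_coe_sort Λ]
    refine Finset.sum_congr rfl fun v _ => ?_
    unfold cc
    rw [glue_mem, glue_mem]
    split_ifs <;> simp
  · unfold nn
    rw [Finset.card_eq_sum_ones, Nat.cast_sum, Finset.sum_mul]
    refine Finset.sum_congr rfl fun v hv => ?_
    rw [Finset.mem_filter] at hv
    rw [if_neg hv.2, glue_mem, glue_not _ _ _ hv.2]
    simp [allT, sg]

/-- summing over the spins outside an injected set -/
lemma sum_restrict {A B : Type} [Fintype A] [Fintype B] [DecidableEq A] [DecidableEq B]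
    (j : B → A) (hj : Function.Injective j) :
    ∃ c : ℝ, 0 < c ∧ ∀ F : (B → Bool) → ℝ,
      ∑ σ : A → Bool, F (fun x => σ (j x)) = c * ∑ τ : B → Bool, F τ := by
  classical
  let C := ↥(Set.range j)ᶜ
  let s : B ⊕ C ≃ A :=
    (Equiv.sumCongr (Equiv.ofInjective j hj) (Equiv.refl _)).trans (Equiv.Set.sumCompl (Set.range j))
  let E : (A → Bool) ≃ (B → Bool) × (C → Bool) :=
    (Equiv.arrowCongr s.symm (Equiv.refl _)).trans (Equiv.sumArrowEquivProdArrow B C Bool)
  have hE : ∀ σ : A → Bool, (E σ).1 = fun x => σ (j x) := by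
    intro σ
    funext x
    simp only [E, s, Equiv.sumArrowEquivProdArrow, Equiv.arrowCongr]
    rfl
  refine ⟨(Fintype.card (C → Bool) : ℝ), by exact_mod_cast Fintype.card_pos, fun F => ?_⟩
  rw [Fintype.sum_equiv E (fun σ => F (fun x => σ (j x))) (fun p => F p.1)
    (fun σ => by rw [hE σ])]
  rw [Fintype.sum_prod_type]
  simp only [Finset.sum_const, Finset.card_univ, nsmul_eq_mul]
  rw [← Finset.mul_sum]

/-- the image of a set of vertices in the lattice -/
def up (Λ : Finset (Site d)) (S : Finset Λ) : Finset (Site d) :=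
  S.map (Function.Embedding.subtype _)

lemma mem_up {Λ : Finset (Site d)} {S : Finset Λ} {x : Site d} :
    x ∈ up Λ S ↔ ∃ h : x ∈ Λ, (⟨x, h⟩ : Λ) ∈ S := by
  unfold up
  simp [Finset.mem_map]

lemma coe_mem_up {Λ : Finset (Site d)} {S : Finset Λ} {x : Λ} :
    (x : Site d) ∈ up Λ S ↔ x ∈ S := by
  rw [mem_up]
  constructor
  · rintro ⟨h, hx⟩; exact hx
  · intro hx; exact ⟨x.2, hx⟩

lemma up_subset (Λ : Finset (Site d)) (S : Finset Λ) : up Λ S ⊆ Λ := by
  intro x hx
  rw [mem_up] at hx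
  exact hx.1

lemma sum_up {Λ : Finset (Site d)} (S : Finset Λ) (f : Site d → ℝ) :
    ∑ x ∈ up Λ S, f x = ∑ x ∈ S, f x := by
  unfold up
  rw [Finset.sum_map]
  rfl

lemma gE_res (β : ℝ) (Λ : Finset (Site d)) (S : Finset Λ) (σ : Λ → Bool) :
    gE (resJ (latJ β Λ) S) 0 σ =
      β * ∑ a ∈ up Λ S, ∑ b ∈ (nbrs a).filter (· ∈ up Λ S),
        1 / 2 * (sg (glue (up Λ S) (fun x => σ ⟨x.1, up_subset Λ S x.2⟩) allT a) *
          sg (glue (up Λ S) (fun x => σ ⟨x.1, up_subset Λ S x.2⟩) allT b)) := by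
  have hg : ∀ x : Λ, x ∈ S →
      glue (up Λ S) (fun x => σ ⟨x.1, up_subset Λ S x.2⟩) allT x = σ x := by
    intro x hx
    unfold glue
    rw [dif_pos (coe_mem_up.2 hx)]
  unfold gE resJ latJ
  simp only [Pi.zero_apply, zero_mul, Finset.sum_const_zero, add_zero]
  rw [sum_up, Finset.mul_sum]
  rw [← Finset.sum_filter_add_sum_filter_not Finset.univ (· ∈ S)]
  have h0 : ∑ u ∈ Finset.univ.filter (fun u : Λ => ¬ u ∈ S), ∑ v : Λ,
      (if u ∈ S ∧ v ∈ S then (if (v : Site d) ∈ nbrs (u : Site d) then β / 2 else 0) else 0) *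
        (sg (σ u) * sg (σ v)) = 0 := by
    refine Finset.sum_eq_zero fun u hu => Finset.sum_eq_zero fun v _ => ?_
    rw [Finset.mem_filter] at hu
    rw [if_neg (fun h => hu.2 h.1), zero_mul]
  rw [h0, add_zero, Finset.filter_univ_mem]
  refine Finset.sum_congr rfl fun u hu => ?_
  have h1 : ∀ f : Site d → ℝ, ∑ b ∈ (nbrs (u : Site d)).filter (· ∈ up Λ S), f b =
      ∑ v ∈ S, if (v : Site d) ∈ nbrs (u : Site d) then f v else 0 := by
    intro f
    rw [← sum_up S (fun v => if v ∈ nbrs (u : Site d) then f v else 0), ← Finset.sum_filter]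
    refine Finset.sum_congr ?_ fun _ _ => rfl
    ext v; simp [and_comm]
  rw [h1, ← Finset.sum_filter_add_sum_filter_not Finset.univ (· ∈ S)]
  have h2 : ∑ v ∈ Finset.univ.filter (fun v : Λ => ¬ v ∈ S),
      (if u ∈ S ∧ v ∈ S then (if (v : Site d) ∈ nbrs (u : Site d) then β / 2 else 0) else 0) *
        (sg (σ u) * sg (σ v)) = 0 := by
    refine Finset.sum_eq_zero fun v hv => ?_
    rw [Finset.mem_filter] at hv
    rw [if_neg (fun h => hv.2 h.2), zero_mul]
  rw [h2, add_zero, Finset.filter_univ_mem, Finset.mul_sum]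
  refine Finset.sum_congr rfl fun v hv => ?_
  rw [if_pos ⟨hu, hv⟩, hg u hu, hg v hv]
  split_ifs
  · ring
  · ring

lemma gav_res (β : ℝ) (Λ : Finset (Site d)) (S : Finset Λ) (o u : Λ) (ho : o ∈ S) (hu : u ∈ S) :
    gav (resJ (latJ β Λ) S) 0 (fun σ => sg (σ o) * sg (σ u)) = frc β (up Λ S) o u := by
  obtain ⟨c, hc, h⟩ := sum_restrict (A := Λ) (B := up Λ S)
    (fun x => ⟨x.1, up_subset Λ S x.2⟩) (by
      intro x y hxy
      apply Subtype.ext
      have := congrArg Subtype.val hxy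
      exact this)
  unfold gav frc
  have hg : ∀ (x : Λ) (σ : Λ → Bool), x ∈ S →
      glue (up Λ S) (fun x => σ ⟨x.1, up_subset Λ S x.2⟩) allT x = σ x := by
    intro x σ hx
    unfold glue
    rw [dif_pos (coe_mem_up.2 hx)]
  have h1 := h (fun τ => sg (glue (up Λ S) τ allT o) * sg (glue (up Λ S) τ allT u) *
      Real.exp (β * ∑ a ∈ up Λ S, ∑ b ∈ (nbrs a).filter (· ∈ up Λ S),
        1 / 2 * (sg (glue (up Λ S) τ allT a) * sg (glue (up Λ S) τ allT b))))
  have h2 := h (fun τ => Real.exp (β * ∑ a ∈ up Λ S, ∑ b ∈ (nbrs a).filter (· ∈ up Λ S),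
        1 / 2 * (sg (glue (up Λ S) τ allT a) * sg (glue (up Λ S) τ allT b))))
  simp only [gE_res]
  have h3 : ∀ σ : Λ → Bool, sg (σ o) * sg (σ u) =
      sg (glue (up Λ S) (fun x => σ ⟨x.1, up_subset Λ S x.2⟩) allT o) *
        sg (glue (up Λ S) (fun x => σ ⟨x.1, up_subset Λ S x.2⟩) allT u) := by
    intro σ
    rw [hg o σ ho, hg u σ hu]
  simp only [h3]
  rw [h1, h2, mul_div_mul_left _ _ hc.ne']

lemma psi_up (β : ℝ) (Λ : Finset (Site d)) (S : Finset Λ) (o : Λ) (ho : o ∈ S) :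
    psi β (up Λ S) o = ∑ u ∈ S, ((∑ v : Λ, if (v : Site d) ∈ nbrs (u : Site d) ∧ v ∉ S then 1 else 0)
      + nn Λ u) * gav (resJ (latJ β Λ) S) 0 (fun σ => sg (σ o) * sg (σ u)) := by
  unfold psi
  rw [sum_up S (fun u => ∑ _v ∈ (nbrs u).filter (· ∉ up Λ S), frc β (up Λ S) o u)]
  refine Finset.sum_congr rfl fun u hu => ?_
  rw [gav_res β Λ S o u ho hu, Finset.sum_const, nsmul_eq_mul]
  congr 1
  rw [← Finset.card_filter_add_card_filter_not (s := (nbrs (u : Site d)).filter (· ∉ up Λ S)) (· ∈ Λ)]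
  rw [Nat.cast_add]
  congr 1
  · have h1 : ∑ v : Λ, (if (v : Site d) ∈ nbrs (u : Site d) ∧ v ∉ S then (1 : ℝ) else 0) =
        ∑ v : Λ, (fun v : Site d => if v ∈ nbrs (u : Site d) ∧ v ∉ up Λ S then (1 : ℝ) else 0) v := by
      refine Finset.sum_congr rfl fun v _ => ?_
      simp only [coe_mem_up]
    rw [h1, Finset.sum_coe_sort Λ (fun v => if v ∈ nbrs (u : Site d) ∧ v ∉ up Λ S then (1 : ℝ) else 0),
      ← Finset.sum_filter, Finset.sum_const, nsmul_eq_mul, mul_one]
    congr 2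
    ext v
    simp only [Finset.mem_filter]
    tauto
  · unfold nn
    congr 2
    ext v
    simp only [Finset.mem_filter]
    constructor
    · rintro ⟨⟨h1, h2⟩, h3⟩; exact ⟨h1, h3⟩
    · rintro ⟨h1, h3⟩; exact ⟨⟨h1, fun h => h3 (up_subset Λ S h)⟩, h3⟩

/-- the derivative of the magnetization -/
lemma mag_deriv (β : ℝ) (Λ : Finset (Site d)) (o : Site d) (hpf : 0 < pf β Λ allT) :
    HasDerivAt (fun b => mag b Λ o)
      (ev β Λ allT (fun σ => sg (σ o) * enrg Λ σ) -
        ev β Λ allT (fun σ => sg (σ o)) * ev β Λ allT (fun σ => enrg Λ σ)) β := by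
  have hw : ∀ τ : Λ → Bool, HasDerivAt (fun b => wt b Λ (glue Λ τ allT))
      (enrg Λ (glue Λ τ allT) * wt β Λ (glue Λ τ allT)) β := by
    intro τ
    unfold wt
    have h := ((hasDerivAt_id β).mul_const (enrg Λ (glue Λ τ allT))).exp
    simp only [id, one_mul] at h
    rw [mul_comm] at h
    exact h
  have hN : HasDerivAt (fun b => ∑ τ : Λ → Bool, sg (glue Λ τ allT o) * wt b Λ (glue Λ τ allT))
      (∑ τ : Λ → Bool, sg (glue Λ τ allT o) * (enrg Λ (glue Λ τ allT) * wt β Λ (glue Λ τ allT))) β :=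
    HasDerivAt.fun_sum fun τ _ => (hw τ).const_mul _
  have hZ : HasDerivAt (fun b => pf b Λ allT)
      (∑ τ : Λ → Bool, (enrg Λ (glue Λ τ allT) * wt β Λ (glue Λ τ allT))) β := by
    unfold pf
    exact HasDerivAt.fun_sum fun τ _ => hw τ
  have h := hN.fun_div hZ hpf.ne'
  unfold mag ev
  refine h.congr_deriv ?_
  have e1 : ∑ τ : Λ → Bool, sg (glue Λ τ allT o) * enrg Λ (glue Λ τ allT) * wt β Λ (glue Λ τ allT) =
      ∑ τ : Λ → Bool, sg (glue Λ τ allT o) * (enrg Λ (glue Λ τ allT) * wt β Λ (glue Λ τ allT)) :=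
    Finset.sum_congr rfl fun τ _ => by ring
  rw [e1]
  have := hpf.ne'
  field_simp

theorem DIFF (hB : S_BASIC) (hE : S_EVG) (hF : S_FKDEC) : S_DIFF := by
  intro d β θ Λ o hβ ho hθ
  obtain ⟨-, hsym, -, -, -, -, -, hpf, -⟩ := hB d
  refine ⟨_, mag_deriv β Λ o (hpf β Λ allT), ?_⟩
  rw [hE, hE d β Λ allT (fun σ => sg (σ o)), hE]
  have hm : mag β Λ o = gav (latJ β Λ) (latH β Λ allT) (fun τ => sg (τ ⟨o, ho⟩)) := by
    unfold mag
    rw [hE]
    congr 1
    funext τ
    exact congrArg sg (glue_mem Λ τ allT ⟨o, ho⟩)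
  have hgo : ∀ τ : Λ → Bool, glue Λ τ allT o = τ ⟨o, ho⟩ := fun τ => glue_mem Λ τ allT ⟨o, ho⟩
  set o' : Λ := ⟨o, ho⟩ with ho'
  set J := latJ β Λ with hJ
  set K := latH β Λ allT with hK
  obtain ⟨π, hπ0, hπ1, hπo, h2, h1⟩ := hF Λ J K o' (by
    intro u v; rw [hJ]; unfold latJ; split_ifs
    · positivity
    · exact le_rfl) (by
    intro u; rw [hK]; unfold latH
    refine mul_nonneg hβ (Finset.sum_nonneg fun v _ => ?_)
    simp [allT, sg])
  rw [← hm] at hπo
  have hA : gav J K (fun τ => sg (glue Λ τ allT o) * enrg Λ (glue Λ τ allT)) -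
      gav J K (fun τ => sg (glue Λ τ allT o)) * gav J K (fun τ => enrg Λ (glue Λ τ allT)) =
      (∑ u : Λ, ∑ v : Λ, cc Λ u v * (gav J K (fun σ => sg (σ o') * (sg (σ u) * sg (σ v))) -
          gav J K (fun σ => sg (σ o')) * gav J K (fun σ => sg (σ u) * sg (σ v)))) +
      ∑ u : Λ, nn Λ u * (gav J K (fun σ => sg (σ o') * sg (σ u)) -
          gav J K (fun σ => sg (σ o')) * gav J K (fun σ => sg (σ u))) := by
    have e1 : (fun τ : Λ → Bool => sg (glue Λ τ allT o) * enrg Λ (glue Λ τ allT)) =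
        fun τ => (∑ u : Λ, ∑ v : Λ, cc Λ u v * (sg (τ o') * (sg (τ u) * sg (τ v)))) +
          ∑ u : Λ, nn Λ u * (sg (τ o') * sg (τ u)) := by
      funext τ
      rw [enrg_glue, hgo, mul_add, Finset.mul_sum, Finset.mul_sum]
      congr 1
      · refine Finset.sum_congr rfl fun u _ => ?_
        rw [Finset.mul_sum]
        refine Finset.sum_congr rfl fun v _ => ?_
        ring
      · refine Finset.sum_congr rfl fun u _ => ?_
        ring
    have e2 : (fun τ : Λ → Bool => enrg Λ (glue Λ τ allT)) =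
        fun τ => (∑ u : Λ, ∑ v : Λ, cc Λ u v * (sg (τ u) * sg (τ v))) +
          ∑ u : Λ, nn Λ u * sg (τ u) := by
      funext τ
      rw [enrg_glue]
    rw [e1, e2]
    simp only [hgo]
    rw [gav_add, gav_add]
    rw [gav_sum J K Finset.univ (fun u τ => ∑ v : Λ, cc Λ u v * (sg (τ o') * (sg (τ u) * sg (τ v)))),
      gav_sum J K Finset.univ (fun u τ => nn Λ u * (sg (τ o') * sg (τ u))),
      gav_sum J K Finset.univ (fun u τ => ∑ v : Λ, cc Λ u v * ((sg (τ u) * sg (τ v)))),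
      gav_sum J K Finset.univ (fun u τ => nn Λ u * (sg (τ u)))]
    have e3 : ∀ u : Λ, gav J K (fun τ => ∑ v : Λ, cc Λ u v * (sg (τ o') * (sg (τ u) * sg (τ v)))) =
        ∑ v : Λ, cc Λ u v * gav J K (fun τ => (sg (τ o') * (sg (τ u) * sg (τ v)))) := by
      intro u
      rw [gav_sum J K Finset.univ (fun v τ => cc Λ u v * (sg (τ o') * (sg (τ u) * sg (τ v))))]
      exact Finset.sum_congr rfl fun v _ => gav_mul J K _ _
    have e4 : ∀ u : Λ, gav J K (fun τ => ∑ v : Λ, cc Λ u v * ((sg (τ u) * sg (τ v)))) =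
        ∑ v : Λ, cc Λ u v * gav J K (fun τ => ((sg (τ u) * sg (τ v)))) := by
      intro u
      rw [gav_sum J K Finset.univ (fun v τ => cc Λ u v * ((sg (τ u) * sg (τ v))))]
      exact Finset.sum_congr rfl fun v _ => gav_mul J K _ _
    simp only [e3, e4, gav_mul]
    rw [mul_add, add_sub_add_comm, Finset.mul_sum, Finset.mul_sum, ← Finset.sum_sub_distrib,
      ← Finset.sum_sub_distrib]
    congr 1
    · refine Finset.sum_congr rfl fun u _ => ?_
      rw [Finset.mul_sum, ← Finset.sum_sub_distrib]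
      refine Finset.sum_congr rfl fun v _ => ?_
      ring
    · refine Finset.sum_congr rfl fun u _ => ?_
      ring
  rw [hA]
  have hlow : (∑ u : Λ, ∑ v : Λ, cc Λ u v * ∑ S : Finset Λ, (if o' ∈ S then π S *
          ((if u ∈ S ∧ v ∉ S then gav (resJ J S) 0 (fun σ => sg (σ o') * sg (σ u)) else 0) +
           (if v ∈ S ∧ u ∉ S then gav (resJ J S) 0 (fun σ => sg (σ o') * sg (σ v)) else 0))
          else 0)) + ∑ u : Λ, nn Λ u * ∑ S : Finset Λ, (if o' ∈ S then π S *
          (if u ∈ S then gav (resJ J S) 0 (fun σ => sg (σ o') * sg (σ u)) else 0)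
          else 0) ≤ (∑ u : Λ, ∑ v : Λ, cc Λ u v * (gav J K (fun σ => sg (σ o') * (sg (σ u) * sg (σ v))) -
          gav J K (fun σ => sg (σ o')) * gav J K (fun σ => sg (σ u) * sg (σ v)))) +
      ∑ u : Λ, nn Λ u * (gav J K (fun σ => sg (σ o') * sg (σ u)) -
          gav J K (fun σ => sg (σ o')) * gav J K (fun σ => sg (σ u))) := by
    refine add_le_add ?_ ?_
    · exact Finset.sum_le_sum fun u _ => Finset.sum_le_sum fun v _ =>
        mul_le_mul_of_nonneg_left (h2 u v) (cc_nonneg Λ u v)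
    · exact Finset.sum_le_sum fun u _ => mul_le_mul_of_nonneg_left (h1 u) (nn_nonneg Λ u)
  refine le_trans ?_ hlow
  -- exchange the sums
  have hswap : (∑ u : Λ, ∑ v : Λ, cc Λ u v * ∑ S : Finset Λ, (if o' ∈ S then π S *
          ((if u ∈ S ∧ v ∉ S then gav (resJ J S) 0 (fun σ => sg (σ o') * sg (σ u)) else 0) +
           (if v ∈ S ∧ u ∉ S then gav (resJ J S) 0 (fun σ => sg (σ o') * sg (σ v)) else 0))
          else 0)) + ∑ u : Λ, nn Λ u * ∑ S : Finset Λ, (if o' ∈ S then π S *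
          (if u ∈ S then gav (resJ J S) 0 (fun σ => sg (σ o') * sg (σ u)) else 0)
          else 0) = ∑ S : Finset Λ, if o' ∈ S then π S * psi β (up Λ S) o else 0 := by
    have s1 : (∑ u : Λ, ∑ v : Λ, cc Λ u v * ∑ S : Finset Λ, (if o' ∈ S then π S *
          ((if u ∈ S ∧ v ∉ S then gav (resJ J S) 0 (fun σ => sg (σ o') * sg (σ u)) else 0) +
           (if v ∈ S ∧ u ∉ S then gav (resJ J S) 0 (fun σ => sg (σ o') * sg (σ v)) else 0))
          else 0)) = ∑ S : Finset Λ, ∑ u : Λ, ∑ v : Λ, cc Λ u v * (if o' ∈ S then π S *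
          ((if u ∈ S ∧ v ∉ S then gav (resJ J S) 0 (fun σ => sg (σ o') * sg (σ u)) else 0) +
           (if v ∈ S ∧ u ∉ S then gav (resJ J S) 0 (fun σ => sg (σ o') * sg (σ v)) else 0))
          else 0) := by
      simp only [Finset.mul_sum]
      rw [Finset.sum_comm' (s := (Finset.univ : Finset (Finset Λ))) (t := fun _ => (Finset.univ : Finset Λ))
        (t' := (Finset.univ : Finset Λ)) (s' := fun _ => (Finset.univ : Finset (Finset Λ)))
        (by simp)]
      refine Finset.sum_congr rfl fun u _ => ?_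
      rw [Finset.sum_comm]
    have s2 : (∑ u : Λ, nn Λ u * ∑ S : Finset Λ, (if o' ∈ S then π S *
          (if u ∈ S then gav (resJ J S) 0 (fun σ => sg (σ o') * sg (σ u)) else 0)
          else 0)) = ∑ S : Finset Λ, ∑ u : Λ, nn Λ u * (if o' ∈ S then π S *
          (if u ∈ S then gav (resJ J S) 0 (fun σ => sg (σ o') * sg (σ u)) else 0)
          else 0) := by
      simp only [Finset.mul_sum]
      rw [Finset.sum_comm]
    rw [s1, s2, ← Finset.sum_add_distrib]
    refine Finset.sum_congr rfl fun S _ => ?_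
    by_cases hS : o' ∈ S
    swap
    · simp [hS]
    simp only [if_pos hS]
    have hps := psi_up β Λ S o' hS
    have : psi β (up Λ S) o = psi β (up Λ S) (o' : Site d) := rfl
    rw [this, hps, ← hJ]
    set g : Λ → ℝ := fun u => gav (resJ J S) 0 (fun σ => sg (σ o') * sg (σ u)) with hg
    have t1 : ∑ u : Λ, ∑ v : Λ, cc Λ u v * (π S * ((if u ∈ S ∧ v ∉ S then g u else 0) +
        (if v ∈ S ∧ u ∉ S then g v else 0))) =
        π S * ∑ u : Λ, ∑ v : Λ, (2 * cc Λ u v) * (if u ∈ S ∧ v ∉ S then g u else 0) := by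
      have t2 : ∑ u : Λ, ∑ v : Λ, cc Λ u v * (if v ∈ S ∧ u ∉ S then g v else 0) =
          ∑ u : Λ, ∑ v : Λ, cc Λ u v * (if u ∈ S ∧ v ∉ S then g u else 0) := by
        rw [Finset.sum_comm]
        refine Finset.sum_congr rfl fun u _ => Finset.sum_congr rfl fun v _ => ?_
        have : cc Λ v u = cc Λ u v := by
          unfold cc
          simp only [hsym (v : Site d) (u : Site d)]
        rw [this]
      have t3 : ∑ u : Λ, ∑ v : Λ, cc Λ u v * (π S * ((if u ∈ S ∧ v ∉ S then g u else 0) +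
        (if v ∈ S ∧ u ∉ S then g v else 0))) =
        π S * (∑ u : Λ, ∑ v : Λ, cc Λ u v * (if u ∈ S ∧ v ∉ S then g u else 0)) +
        π S * ∑ u : Λ, ∑ v : Λ, cc Λ u v * (if v ∈ S ∧ u ∉ S then g v else 0) := by
        simp only [Finset.mul_sum]
        rw [← Finset.sum_add_distrib]
        refine Finset.sum_congr rfl fun u _ => ?_
        rw [← Finset.sum_add_distrib]
        refine Finset.sum_congr rfl fun v _ => ?_
        ring
      rw [t3, t2, ← mul_add, ← Finset.sum_add_distrib]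
      congr 1
      refine Finset.sum_congr rfl fun u _ => ?_
      rw [← Finset.sum_add_distrib]
      refine Finset.sum_congr rfl fun v _ => ?_
      ring
    have t4 : ∑ u : Λ, nn Λ u * (π S * (if u ∈ S then g u else 0)) =
        π S * ∑ u : Λ, nn Λ u * (if u ∈ S then g u else 0) := by
      rw [Finset.mul_sum]
      exact Finset.sum_congr rfl fun u _ => by ring
    change ∑ u : Λ, ∑ v : Λ, cc Λ u v * (π S * ((if u ∈ S ∧ v ∉ S then g u else 0) +
        (if v ∈ S ∧ u ∉ S then g v else 0))) + ∑ u : Λ, nn Λ u * (π S * (if u ∈ S then g u else 0)) =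
        π S * ∑ u ∈ S, ((∑ v : Λ, if (v : Site d) ∈ nbrs (u : Site d) ∧ v ∉ S then 1 else 0)
      + nn Λ u) * g u
    rw [t1, t4, ← mul_add]
    congr 1
    rw [← Finset.sum_add_distrib, ← Finset.sum_filter_add_sum_filter_not Finset.univ (· ∈ S)]
    have t5 : ∑ u ∈ Finset.univ.filter (fun u : Λ => ¬ u ∈ S), ((∑ v : Λ, (2 * cc Λ u v) *
        (if u ∈ S ∧ v ∉ S then g u else 0)) + nn Λ u * (if u ∈ S then g u else 0)) = 0 := by
      refine Finset.sum_eq_zero fun u hu => ?_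
      rw [Finset.mem_filter] at hu
      simp [hu.2]
    rw [t5, add_zero, Finset.filter_univ_mem]
    refine Finset.sum_congr rfl fun u hu => ?_
    rw [add_mul, Finset.sum_mul, if_pos hu]
    congr 1
    refine Finset.sum_congr rfl fun v _ => ?_
    unfold cc
    by_cases hv : v ∈ S
    · simp [hv]
    · by_cases hn : (v : Site d) ∈ nbrs (u : Site d)
      · simp [hv, hn, hu]
      · simp [hn]
  rw [hswap]
  have hge : ∑ S : Finset Λ, (if o' ∈ S then π S * θ else 0) ≤
      ∑ S : Finset Λ, if o' ∈ S then π S * psi β (up Λ S) o else 0 := by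
    refine Finset.sum_le_sum fun S _ => ?_
    by_cases hS : o' ∈ S
    · rw [if_pos hS, if_pos hS]
      refine mul_le_mul_of_nonneg_left (hθ _ (up_subset Λ S) ?_) (hπ0 S)
      exact coe_mem_up.2 hS
    · rw [if_neg hS, if_neg hS]
  refine le_trans (le_of_eq ?_) hge
  rw [← hπo, ← hπ1, ← Finset.sum_sub_distrib, Finset.mul_sum]
  refine Finset.sum_congr rfl fun S _ => ?_
  split_ifs <;> ring

end Pool.Agent.Helper52.Isg
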