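import Pool.Agent.Helper70.Isg.Goals2

/-!
# MP_600500_pr: exponential decay of the plus magnetization
-/

open MeasureTheory
open Pool.Agent.Helper70.Isg

noncomputable section

namespace Pool.Agent.Helper52.Isg

variable {d : ℕ}

lemma sg_mono (v : Site d) : Monotone (fun σ : Cfg d => sg (σ v)) := by
  intro σ σ' h
  have h1 := h v
  change sg (σ v) ≤ sg (σ' v)
  unfold sg
  cases h2 : σ v <;> cases h3 : σ' v
  · simp
  · norm_num
  · rw [h2, h3] at h1; exact absurd h1 (by simp)
  · simp

lemma mag_nonneg (hM : S_MONB) (hFl : S_FLIP) (hB : S_BASIC) (β : ℝ) (hβ : 0 ≤ β)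
    (Λ : Finset (Site d)) (v : Site d) : 0 ≤ mag β Λ v := by
  obtain ⟨-, -, -, -, -, -, -, -, -, -, hmul, -, -⟩ := hB d
  have h1 := hM d β Λ (fun u => !(allT u)) allT (fun σ => sg (σ v)) hβ (fun u _ => by
    simp [allT]) (sg_mono v)
  rw [hFl] at h1
  have h2 : (fun σ : Cfg d => sg (!(σ v))) = fun σ => (-1) * sg (σ v) := by
    funext σ
    unfold sg
    cases σ v <;> simp
  rw [h2, hmul] at h1
  unfold mag
  linarith

lemma mag_le_one (hB : S_BASIC) (β : ℝ) (Λ : Finset (Site d)) (v : Site d) : mag β Λ v ≤ 1 := by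
  obtain ⟨-, -, -, -, -, -, -, -, hc, -, -, hmono, -⟩ := hB d
  have h := hmono β Λ allT (fun σ => sg (σ v)) (fun _ => 1) (fun σ => by
    unfold sg; split_ifs <;> norm_num)
  rw [hc] at h
  exact h

lemma ball_image (hB : S_BASIC) (v : Site d) (k : ℕ) :
    (ball (0 : Site d) k).image (· + v) = ball v k := by
  obtain ⟨-, -, -, hball, -⟩ := hB d
  ext u
  rw [Finset.mem_image, hball]
  constructor
  · rintro ⟨w, hw, rfl⟩
    rw [hball] at hw
    simpa using hw
  · intro h
    refine ⟨u - v, ?_, by simp⟩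
    rw [hball]
    simpa using h

lemma mag_ball (hB : S_BASIC) (hT : S_TRAN) (β : ℝ) (v : Site d) (k : ℕ) :
    mag β (ball v k) v = mag β (ball (0 : Site d) k) 0 := by
  unfold mag
  rw [← ball_image hB v k, hT]
  have h1 : shift v (allT : Cfg d) = allT := rfl
  rw [h1]
  congr 1
  funext σ
  unfold shift
  simp

theorem SHARP (hB : S_BASIC) (hL : S_LIEB) (hD : S_DIFF) (hP : S_MONPSI) (hM : S_MONB)
    (hMD : S_MOND) (hT : S_TRAN) (hFl : S_FLIP) (hN : S_NONU) : S_SHARP := by
  intro d β β' hβ hββ' huniq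
  have hBd := hB d
  obtain ⟨hnb, hsym, hirr, hball, htri, hneg, hl0, hpf, hcst, -, -, -, -⟩ := hBd
  have hl00 : l1 (0 : Site d) = 0 := (hl0 0).2 rfl
  have h0ball : ∀ n : ℕ, (0 : Site d) ∈ ball (0 : Site d) n := by
    intro n; rw [hball]; simp [hl00]
  have htanh0 : 0 ≤ Real.tanh β := by
    rw [Real.tanh_eq_sinh_div_cosh]
    exact div_nonneg (Real.sinh_nonneg_iff.2 hβ) (Real.cosh_pos β).le
  -- step 1
  have key : ∃ S : Finset (Site d), (0 : Site d) ∈ S ∧ Real.tanh β * psi β S 0 < 1 := by
    by_contra hcon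
    push Not at hcon
    have hpos : 0 < β := by
      rcases hβ.eq_or_lt with h | h
      · exfalso
        have := hcon {0} (by simp)
        rw [← h, Real.tanh_zero, zero_mul] at this
        linarith
      · exact h
    have htanh1 : Real.tanh β < 1 := Real.tanh_lt_one β
    have hpsi : ∀ S : Finset (Site d), (0 : Site d) ∈ S → 1 ≤ psi β S 0 := by
      intro S hS
      have h1 := hcon S hS
      by_contra h2
      push Not at h2
      rcases le_or_gt (psi β S 0) 0 with h3 | h3
      · have : Real.tanh β * psi β S 0 ≤ 0 := mul_nonpos_of_nonneg_of_nonpos htanh0 h3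
        linarith
      · have : Real.tanh β * psi β S 0 ≤ 1 * psi β S 0 := mul_le_mul_of_nonneg_right htanh1.le h3.le
        linarith
    have hmain : ∀ n : ℕ, 1 - Real.exp (β - β') ≤ mag β' (ball (0 : Site d) n) 0 := by
      intro n
      set Λ := ball (0 : Site d) n with hΛ
      have hder : ∀ b, β ≤ b → ∃ D : ℝ, HasDerivAt (fun b => mag b Λ 0) D b ∧
          1 * (1 - mag b Λ 0) ≤ D := by
        intro b hb
        refine hD d b 1 Λ 0 (hβ.trans hb) (h0ball n) ?_
        intro S _ hS
        exact (hpsi S hS).trans (hP d β b S 0 hβ hb hS).1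
      have hanti : AntitoneOn (fun b => (1 - mag b Λ 0) * Real.exp b) (Set.Icc β β') := by
        have hg : ∀ b, β ≤ b → ∃ D : ℝ, HasDerivAt (fun b => (1 - mag b Λ 0) * Real.exp b) D b ∧
            D ≤ 0 := by
          intro b hb
          obtain ⟨D, hD1, hD2⟩ := hder b hb
          refine ⟨_, (hD1.const_sub 1).mul (Real.hasDerivAt_exp b), ?_⟩
          have := Real.exp_pos b
          nlinarith
        refine antitoneOn_of_deriv_nonpos (convex_Icc _ _) ?_ ?_ ?_
        · intro b hb
          obtain ⟨D, hD1, -⟩ := hg b hb.1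
          exact hD1.continuousAt.continuousWithinAt
        · intro b hb
          rw [interior_Icc] at hb
          obtain ⟨D, hD1, -⟩ := hg b hb.1.le
          exact hD1.differentiableAt.differentiableWithinAt
        · intro b hb
          rw [interior_Icc] at hb
          obtain ⟨D, hD1, hD2⟩ := hg b hb.1.le
          rw [hD1.deriv]
          exact hD2
      have h1 := hanti (Set.left_mem_Icc.2 hββ'.le) (Set.right_mem_Icc.2 hββ'.le) hββ'.le
      simp only at h1
      have h2 : (1 - mag β Λ 0) * Real.exp β ≤ Real.exp β := by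
        have := mag_nonneg hM hFl hB β hβ Λ (0 : Site d)
        have := Real.exp_pos β
        nlinarith
      have h3 : (1 - mag β' Λ 0) * Real.exp β' ≤ Real.exp (β - β') * Real.exp β' := by
        rw [← Real.exp_add]
        simpa using h1.trans h2
      have h4 := le_of_mul_le_mul_right h3 (Real.exp_pos β')
      linarith
    have hc : 0 < 1 - Real.exp (β - β') := by
      have : Real.exp (β - β') < 1 := by
        rw [Real.exp_lt_one_iff]; linarith
      linarith
    obtain ⟨μ, ν, hμ, hν, hne⟩ := hN d β' _ (hβ.trans hββ'.le) hc hmain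
    exact hne (huniq μ ν hμ hν)
  obtain ⟨S, h0S, hS⟩ := key
  have hfrc := (hP d β β S 0 hβ le_rfl h0S).2
  have hpsi0 : 0 ≤ psi β S 0 := by
    unfold psi
    exact Finset.sum_nonneg fun u hu => Finset.sum_nonneg fun v _ => hfrc u hu
  set R := S.sup (fun u => l1 u) + 1 with hR
  have hRu : ∀ u ∈ S, l1 u + 1 ≤ R := by
    intro u hu
    have : l1 u ≤ S.sup (fun u => l1 u) := Finset.le_sup (f := fun u => l1 u) hu
    omega
  have hRpos : 0 < R := by omega
  set m : ℕ → ℝ := fun n => mag β (ball (0 : Site d) n) 0 with hm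
  have hm0 : ∀ n, 0 ≤ m n := fun n => mag_nonneg hM hFl hB β hβ _ _
  have hm1 : ∀ n, m n ≤ 1 := fun n => mag_le_one hB β _ _
  set θ := Real.tanh β * psi β S 0 with hθ
  have hθ0 : 0 ≤ θ := mul_nonneg htanh0 hpsi0
  have hrec : ∀ n, R ≤ n → m n ≤ θ * m (n - R) := by
    intro n hn
    have hSb : S ⊆ ball (0 : Site d) n := by
      intro u hu
      rw [hball, sub_zero]
      have := hRu u hu
      omega
    have h1 := hL d β S (ball (0 : Site d) n) 0 hβ h0S hSb
    refine h1.trans ?_
    rw [hθ, mul_assoc]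
    refine mul_le_mul_of_nonneg_left ?_ htanh0
    unfold psi
    rw [Finset.sum_mul]
    refine Finset.sum_le_sum fun u hu => ?_
    rw [Finset.sum_mul]
    refine Finset.sum_le_sum fun v hv => ?_
    refine mul_le_mul_of_nonneg_left ?_ (hfrc u hu)
    rw [Finset.mem_filter] at hv
    have hlv : l1 v ≤ R := by
      have h2 := (hnb u v).1 hv.1
      have h3 := htri (v - u) u
      rw [sub_add_cancel] at h3
      have := hRu u hu
      omega
    rw [hm]
    simp only
    rw [← mag_ball hB hT β v (n - R)]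
    refine hMD d β (ball v (n - R)) (ball 0 n) (fun σ => sg (σ v)) hβ ?_ (sg_mono v)
    intro w hw
    rw [hball] at hw ⊢
    rw [sub_zero]
    have h3 := htri (w - v) v
    rw [sub_add_cancel] at h3
    omega
  set q := max θ (1 / 2) with hq
  have hq0 : 0 < q := lt_of_lt_of_le (by norm_num) (le_max_right _ _)
  have hq1 : q < 1 := max_lt hS (by norm_num)
  have hdec : ∀ n, m n ≤ q ^ (n / R) := by
    intro n
    induction n using Nat.strong_induction_on with
    | _ n ih =>
      rcases lt_or_ge n R with h | h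
      · rw [Nat.div_eq_of_lt h, pow_zero]
        exact hm1 n
      · have h1 := hrec n h
        have h2 := ih (n - R) (by omega)
        have h3 : n / R = (n - R) / R + 1 := by
          rw [Nat.div_eq_sub_div hRpos h]
        rw [h3, pow_succ, mul_comm]
        calc m n ≤ θ * m (n - R) := h1
          _ ≤ q * m (n - R) := mul_le_mul_of_nonneg_right (le_max_left _ _) (hm0 _)
          _ ≤ q * q ^ ((n - R) / R) := mul_le_mul_of_nonneg_left h2 hq0.le
  have hlog : Real.log q < 0 := Real.log_neg hq0 hq1
  refine ⟨q⁻¹, -Real.log q / R, ?_, fun n => ?_⟩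
  · exact div_pos (by linarith) (by exact_mod_cast hRpos)
  · refine (hdec n).trans ?_
    have hRr : (0 : ℝ) < R := by exact_mod_cast hRpos
    have h1 : q ^ (n / R) = Real.exp (((n / R : ℕ) : ℝ) * Real.log q) := by
      rw [Real.exp_nat_mul, Real.exp_log hq0]
    have h2 : q⁻¹ = Real.exp (-Real.log q) := by
      rw [Real.exp_neg, Real.exp_log hq0]
    rw [h1, h2, ← Real.exp_add]
    refine Real.exp_le_exp.2 ?_
    have h3 : (n : ℝ) / R ≤ ((n / R : ℕ) : ℝ) + 1 := by
      rw [div_le_iff₀ hRr]
      have h4 : n < (n / R + 1) * R := by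
        have := Nat.lt_mul_div_succ n hRpos
        rw [mul_comm] at this
        exact this
      exact_mod_cast h4.le
    have h5 : -(-Real.log q / R) * n = (n / R) * Real.log q := by
      field_simp
    rw [h5]
    nlinarith

end Pool.Agent.Helper52.Isg
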