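import Pool.Agent.Helper70.Isg.Goals2

/-!
# MP_600500_pr: exponential tail of the dependency radius
-/

open MeasureTheory
open Pool.Agent.Helper70.Isg

noncomputable section

namespace Pool.Agent.Helper52.Isg

variable {d : ℕ}

lemma tsum_prod_pow {α : Type*} (g : α → ENNReal) (n : ℕ) :
    ∑' x : Fin n → α, ∏ i, g (x i) = (∑' a, g a) ^ n := by
  induction n with
  | zero => simp
  | succ n ih =>
    rw [← (Fin.consEquiv (fun _ : Fin (n + 1) => α)).tsum_eq, ENNReal.tsum_prod']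
    simp only [Fin.consEquiv, Equiv.coe_fn_mk, Fin.prod_univ_succ, Fin.cons_zero, Fin.cons_succ]
    simp only [ENNReal.tsum_mul_left, ENNReal.tsum_mul_right]
    rw [ih, pow_succ, mul_comm]

lemma tsum_int_lt_top (κ : ℝ) (h0 : 0 ≤ κ) (h1 : κ < 1) :
    ∑' k : ℤ, ENNReal.ofReal (κ ^ k.natAbs) < ⊤ := by
  have hs : Summable (fun k : ℤ => κ ^ k.natAbs) := by
    rw [summable_int_iff_summable_nat_and_neg]
    constructor
    · simpa using summable_geometric_of_lt_one h0 h1
    · simpa using summable_geometric_of_lt_one h0 h1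
  rw [← ENNReal.ofReal_tsum_of_nonneg (fun k => by positivity) hs]
  exact ENNReal.ofReal_lt_top

lemma tsum_site (κ : ℝ) (h0 : 0 ≤ κ) :
    ∑' z : Site d, ENNReal.ofReal (κ ^ l1 z) = (∑' k : ℤ, ENNReal.ofReal (κ ^ k.natAbs)) ^ d := by
  rw [← tsum_prod_pow]
  refine tsum_congr fun z => ?_
  unfold l1
  rw [← ENNReal.ofReal_prod_of_nonneg (fun i _ => by positivity), Finset.prod_pow_eq_pow_sum]

/-- the positions of a path with given increments -/
def pos (v : Site d) {n : ℕ} (x : Fin n → Site d) (i : ℕ) : Site d :=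
  v + ∑ j ∈ Finset.range i, if h : j < n then x ⟨j, h⟩ else 0

lemma pos_eq (v : Site d) (n : ℕ) (p : ℕ → Site d) (h0 : p 0 = v) (i : ℕ) (hi : i ≤ n) :
    pos v (fun j : Fin n => p (j + 1) - p j) i = p i := by
  unfold pos
  have : ∑ j ∈ Finset.range i, (if h : j < n then p (j + 1) - p j else 0) =
      ∑ j ∈ Finset.range i, (p (j + 1) - p j) := by
    refine Finset.sum_congr rfl fun j hj => ?_
    rw [Finset.mem_range] at hj
    rw [dif_pos (by omega)]
  rw [this, Finset.sum_range_sub, h0]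
  abel

lemma pos_succ_sub (v : Site d) {n : ℕ} (x : Fin n → Site d) (i : Fin n) :
    pos v x (i + 1) - pos v x i = x i := by
  unfold pos
  rw [Finset.sum_range_succ, dif_pos i.2]
  abel

/-- the event that a path with given increments is a dependency path and is long -/
def Ev (K L : ℕ) (v : Site d) (R n : ℕ) (x : Fin n → Site d) : Set (Inp d L) :=
  {y | (∀ i j, i ≤ n → j ≤ n → pos v x i = pos v x j → i = j) ∧
    (∀ i < n, pos v x (i + 1) ∈ ball (pos v x i) (K * ((y (pos v x i)).2 + 1)) ∧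
      lab y (pos v x (i + 1)) ≤ lab y (pos v x i)) ∧
    R - (∑ i, l1 (x i)) < K * ((y (pos v x n)).2 + 1)}

lemma path_of_refl {K L : ℕ} {y : Inp d L} {v w : Site d}
    (h : Relation.ReflTransGen (stp K y) v w) :
    ∃ (n : ℕ) (p : ℕ → Site d), p 0 = v ∧ p n = w ∧ ∀ i < n, stp K y (p i) (p (i + 1)) := by
  induction h with
  | refl => exact ⟨0, fun _ => v, rfl, rfl, fun i hi => absurd hi (by omega)⟩
  | @tail b c _ hbc ih =>
    obtain ⟨n, p, h0, hn, hs⟩ := ih
    refine ⟨n + 1, fun i => if i ≤ n then p i else c, ?_, ?_, ?_⟩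
    · simp [h0]
    · simp
    · intro i hi
      rcases Nat.lt_or_ge i n with h | h
      · simp only [if_pos h.le, if_pos (show i + 1 ≤ n by omega)]
        exact hs i h
      · have : i = n := by omega
        subst this
        simp only [le_refl, if_true, if_neg (show ¬ i + 1 ≤ i by omega)]
        rw [hn]
        exact hbc

lemma prb_iff (l : Site d → ℕ) (w v : Site d) :
    prb l w v = true ↔ (l w < l v ∨ (l w = l v ∧ toLex w < toLex v)) := by
  unfold prb
  simp

lemma path_inj {K L : ℕ} {y : Inp d L} {n : ℕ} {p : ℕ → Site d}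
    (hs : ∀ i < n, stp K y (p i) (p (i + 1))) (i j : ℕ) (hi : i ≤ n) (hj : j ≤ n)
    (hij : p i = p j) : i = j := by
  have key : ∀ i k, i + k + 1 ≤ n → (lab y (p (i + k + 1)) < lab y (p i) ∨
      (lab y (p (i + k + 1)) = lab y (p i) ∧ toLex (p (i + k + 1)) < toLex (p i))) := by
    intro i k
    induction k with
    | zero =>
      intro hk
      have := (hs i (by omega)).2
      rw [prb_iff] at this
      exact this
    | succ k ih =>
      intro hk
      have h1 := ih (by omega)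
      have h2 := (hs (i + k + 1) (by omega)).2
      rw [prb_iff] at h2
      have e : i + (k + 1) + 1 = i + k + 1 + 1 := by ring
      rw [e]
      rcases h1 with h1 | ⟨h1, h1'⟩ <;> rcases h2 with h2 | ⟨h2, h2'⟩
      · exact Or.inl (h2.trans h1)
      · exact Or.inl (h2 ▸ h1)
      · exact Or.inl (h1 ▸ h2)
      · exact Or.inr ⟨h2.trans h1, h2'.trans h1'⟩
  have key2 : ∀ i j, i < j → j ≤ n → p i ≠ p j := by
    intro i j h hj he
    obtain ⟨k, rfl⟩ := Nat.exists_eq_add_of_lt h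
    rcases key i k hj with h | ⟨-, h⟩
    · rw [he] at h; exact lt_irrefl _ h
    · rw [he] at h; exact lt_irrefl _ h
  rcases Nat.lt_trichotomy i j with h | h | h
  · exact absurd hij (key2 i j h hj)
  · exact h
  · exact absurd hij.symm (key2 j i h hi)

lemma l1_sum_le (htri : ∀ u v : Site d, l1 (u + v) ≤ l1 u + l1 v) (h0 : l1 (0 : Site d) = 0)
    (n : ℕ) (f : ℕ → Site d) : l1 (∑ i ∈ Finset.range n, f i) ≤ ∑ i ∈ Finset.range n, l1 (f i) := by
  induction n with
  | zero => simp [h0]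
  | succ n ih =>
    rw [Finset.sum_range_succ, Finset.sum_range_succ]
    exact (htri _ _).trans (Nat.add_le_add_right ih _)

lemma bad_subset (hB : S_BASIC) {K L : ℕ} (hK : 0 < K) (v : Site d) (R : ℕ) :
    {y : Inp d L | ¬ Good K y v R} ⊆ ⋃ n : ℕ, ⋃ x : Fin n → Site d, Ev K L v R n x := by
  obtain ⟨hnb, hsym, hirr, hball, htri, hneg, hl0, -⟩ := hB d
  intro y hy
  simp only [Set.mem_ofPred_eq, Good] at hy
  push Not at hy
  obtain ⟨w, hw, u, hu, hR⟩ := hy
  obtain ⟨n, p, h0, hn, hs⟩ := path_of_refl hw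
  rw [Set.mem_iUnion]
  refine ⟨n, ?_⟩
  rw [Set.mem_iUnion]
  refine ⟨fun j : Fin n => p (j + 1) - p j, ?_⟩
  refine ⟨?_, ?_, ?_⟩
  · intro i j hi hj hij
    rw [pos_eq v n p h0 i hi, pos_eq v n p h0 j hj] at hij
    exact path_inj hs i j hi hj hij
  · intro i hi
    rw [pos_eq v n p h0 i hi.le, pos_eq v n p h0 (i + 1) hi]
    have h := hs i hi
    refine ⟨h.1, ?_⟩
    have h2 := h.2
    rw [prb_iff] at h2
    rcases h2 with h2 | ⟨h2, -⟩
    · exact h2.le
    · exact h2.le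
  · rw [pos_eq v n p h0 n le_rfl, hn]
    rw [hball] at hu
    have h1 : l1 (u - v) ≤ l1 (u - w) + l1 (w - v) := by
      have := htri (u - w) (w - v)
      rwa [sub_add_sub_cancel] at this
    have h2 : l1 (w - v) ≤ ∑ i : Fin n, l1 (p (i + 1) - p i) := by
      have h3 := l1_sum_le htri ((hl0 0).2 rfl) n (fun i => p (i + 1) - p i)
      rw [Finset.sum_range_sub, h0, hn] at h3
      rw [Fin.sum_univ_eq_sum_range (fun i => l1 (p (i + 1) - p i)) n]
      exact h3
    have h4 : 0 < K * ((y w).2 + 1) := Nat.mul_pos hK (Nat.succ_pos _)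
    simp only
    omega

lemma kap_bound (κ : ℝ) (h0 : 0 < κ) (h1 : κ < 1) (R s : ℕ) :
    (κ ^ 2) ^ (R - s) * κ ^ (2 * s) ≤ κ ^ R * κ ^ s := by
  rw [← pow_mul, ← pow_add, ← pow_add]
  refine pow_le_pow_of_le_one h0.le h1.le ?_
  omega

theorem TAIL (hB : S_BASIC) (hPath : S_PATH) : S_TAIL := by
  intro d K hK
  have hKr : (0 : ℝ) < K := by exact_mod_cast hK
  set ρ : ℝ := (2 / 3 : ℝ) ^ (1 / (K : ℝ)) with hρ
  have hρ0 : 0 < ρ := Real.rpow_pos_of_pos (by norm_num) _
  have hρ1 : ρ < 1 := Real.rpow_lt_one (by norm_num) (by norm_num) (by positivity)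
  set κ : ℝ := Real.sqrt ρ with hκ
  have hκ0 : 0 < κ := Real.sqrt_pos.2 hρ0
  have hκ2 : κ ^ 2 = ρ := Real.sq_sqrt hρ0.le
  have hκ1 : κ < 1 := by
    rw [hκ, Real.sqrt_lt' one_pos]; simpa using hρ1
  set M : ENNReal := ∑' z : Site d, ENNReal.ofReal (3 / 2 * κ ^ l1 z) with hM
  have hMtop : M < ⊤ := by
    have e : M = ENNReal.ofReal (3 / 2) * (∑' k : ℤ, ENNReal.ofReal (κ ^ k.natAbs)) ^ d := by
      rw [hM, ← tsum_site κ hκ0.le, ← ENNReal.tsum_mul_left]
      refine tsum_congr fun z => ?_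
      rw [ENNReal.ofReal_mul (by norm_num)]
    rw [e]
    exact ENNReal.mul_lt_top ENNReal.ofReal_lt_top
      (ENNReal.pow_lt_top (tsum_int_lt_top κ hκ0.le hκ1))
  obtain ⟨L, hL⟩ := exists_nat_ge (4 * M.toReal + 1)
  have hLr : (0 : ℝ) < L := lt_of_lt_of_le (by positivity) hL
  have hL0 : 0 < L := by exact_mod_cast hLr
  refine ⟨L, hL0, 2 ^ L * (3 / 2) * 2, -Real.log κ, by
    have := Real.log_neg hκ0 hκ1; linarith, fun v R => ?_⟩
  have hterm : ∀ (n : ℕ) (x : Fin n → Site d), P2 d L (Ev K L v R n x) ≤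
      ENNReal.ofReal (2 ^ L * (3 / 2) * κ ^ R) *
        ∏ i, (ENNReal.ofReal (2 / L) * ENNReal.ofReal (3 / 2 * κ ^ l1 (x i))) := by
    intro n x
    by_cases hinj : ∀ i j, i ≤ n → j ≤ n → pos v x i = pos v x j → i = j
    swap
    · have : Ev K L v R n x = ∅ := by
        ext y
        simp only [Ev, Set.mem_ofPred_eq, Set.mem_empty_iff_false, iff_false]
        exact fun h => hinj h.1
      rw [this, measure_empty]
      exact bot_le
    have h1 := hPath d K L hK hL0 (pos v x) n (R - ∑ i, l1 (x i)) hinj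
    have h2 : P2 d L (Ev K L v R n x) ≤ _ := (measure_mono (fun y hy => hy.2)).trans h1
    refine h2.trans ?_
    rw [← hρ]
    have h3 : ∀ i : Fin n, ENNReal.ofReal (2 / L) * ENNReal.ofReal (3 / 2 * κ ^ l1 (x i)) =
        ENNReal.ofReal (2 / L * (3 / 2 * κ ^ l1 (x i))) := by
      intro i
      exact (ENNReal.ofReal_mul (by positivity)).symm
    simp only [h3]
    rw [← ENNReal.ofReal_prod_of_nonneg (fun i _ => by positivity),
      ← ENNReal.ofReal_mul (by positivity)]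
    refine ENNReal.ofReal_le_ofReal ?_
    have h4 : ∏ i ∈ Finset.range n, (3 / 2 * ρ ^ l1 (pos v x (i + 1) - pos v x i)) =
        ∏ i : Fin n, (3 / 2 * ρ ^ l1 (x i)) := by
      rw [← Fin.prod_univ_eq_prod_range (fun i => 3 / 2 * ρ ^ l1 (pos v x (i + 1) - pos v x i)) n]
      refine Finset.prod_congr rfl fun i _ => ?_
      rw [pos_succ_sub]
    rw [h4]
    simp only [Finset.prod_mul_distrib, Finset.prod_const, Finset.card_univ, Fintype.card_fin,
      Finset.prod_pow_eq_pow_sum]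
    set s := ∑ i, l1 (x i) with hs
    have h5 := kap_bound κ hκ0 hκ1 R s
    rw [← hκ2]
    have h6 : (κ ^ 2) ^ s = κ ^ (2 * s) := by rw [← pow_mul]
    rw [h6]
    have h7 : (0 : ℝ) ≤ 2 ^ L * (2 / L) ^ n * (3 / 2) ^ n * (3 / 2) := by positivity
    calc 2 ^ L * (2 / (L : ℝ)) ^ n * ((3 / 2) ^ n * κ ^ (2 * s)) * (3 / 2 * (κ ^ 2) ^ (R - s))
        = (2 ^ L * (2 / L) ^ n * (3 / 2) ^ n * (3 / 2)) * ((κ ^ 2) ^ (R - s) * κ ^ (2 * s)) := by ring
      _ ≤ (2 ^ L * (2 / L) ^ n * (3 / 2) ^ n * (3 / 2)) * (κ ^ R * κ ^ s) :=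
        mul_le_mul_of_nonneg_left h5 h7
      _ = _ := by ring
  have hhalf : ENNReal.ofReal (2 / L) * M ≤ ENNReal.ofReal (1 / 2) := by
    rw [← ENNReal.ofReal_toReal hMtop.ne, ← ENNReal.ofReal_mul (by positivity)]
    refine ENNReal.ofReal_le_ofReal ?_
    rw [div_mul_eq_mul_div, div_le_iff₀ hLr]
    linarith
  calc P2 d L {y | ¬ Good K y v R}
      ≤ P2 d L (⋃ n : ℕ, ⋃ x : Fin n → Site d, Ev K L v R n x) := measure_mono (bad_subset hB hK v R)
    _ ≤ ∑' n : ℕ, P2 d L (⋃ x : Fin n → Site d, Ev K L v R n x) := measure_iUnion_le _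
    _ ≤ ∑' n : ℕ, ∑' x : Fin n → Site d, P2 d L (Ev K L v R n x) :=
        ENNReal.tsum_le_tsum fun n => measure_iUnion_le _
    _ ≤ ∑' n : ℕ, ∑' x : Fin n → Site d, ENNReal.ofReal (2 ^ L * (3 / 2) * κ ^ R) *
        ∏ i, (ENNReal.ofReal (2 / L) * ENNReal.ofReal (3 / 2 * κ ^ l1 (x i))) :=
        ENNReal.tsum_le_tsum fun n => ENNReal.tsum_le_tsum fun x => hterm n x
    _ = ∑' n : ℕ, ENNReal.ofReal (2 ^ L * (3 / 2) * κ ^ R) * (ENNReal.ofReal (2 / L) * M) ^ n := by
        refine tsum_congr fun n => ?_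
        rw [ENNReal.tsum_mul_left,
          tsum_prod_pow (fun z : Site d => ENNReal.ofReal (2 / L) * ENNReal.ofReal (3 / 2 * κ ^ l1 z)) n,
          ENNReal.tsum_mul_left]
    _ ≤ ∑' n : ℕ, ENNReal.ofReal (2 ^ L * (3 / 2) * κ ^ R) * (ENNReal.ofReal (1 / 2)) ^ n :=
        ENNReal.tsum_le_tsum fun n => mul_le_mul_right (pow_le_pow_left' hhalf n) _
    _ = ENNReal.ofReal (2 ^ L * (3 / 2) * 2 * Real.exp (-(-Real.log κ) * R)) := by
        rw [ENNReal.tsum_mul_left]
        have h8 : ∑' n : ℕ, (ENNReal.ofReal (1 / 2)) ^ n = ENNReal.ofReal 2 := by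
          have h9 : ∀ n : ℕ, (ENNReal.ofReal (1 / 2)) ^ n = ENNReal.ofReal ((1 / 2) ^ n) := fun n => by
            rw [ENNReal.ofReal_pow (by norm_num)]
          simp only [h9]
          rw [← ENNReal.ofReal_tsum_of_nonneg (fun n => by positivity)
            (summable_geometric_of_lt_one (by norm_num) (by norm_num)), tsum_geometric_two]
        rw [h8, ← ENNReal.ofReal_mul (by positivity)]
        congr 1
        have h10 : Real.exp (-(-Real.log κ) * R) = κ ^ R := by
          rw [neg_neg, mul_comm, Real.exp_nat_mul, Real.exp_log hκ0]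
        rw [h10]
        ring

end Pool.Agent.Helper52.Isg
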